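import Pool.Agent.W240.EG.Lnv0
import Pool.Agent.W357.EG.LgK

set_option autoImplicit false

/-!
Project EG (helper78), part LNV: the L-functions do not vanish on the line `Re s = 1`
(port of `Pool.Agent.W816.EC.Lnv`).
-/

open Finset Filter Topology Complex
open ArithmeticFunction (vonMangoldt)
open scoped ComplexOrder

namespace Pool.Agent.W240.EG

open Pool.Agent.W78.GA
open Pool.Agent.W78.EG
open Pool.Agent.H304R3.HK (Lg F_ne_zero nzr_ineq)
open Pool.Agent.W816.EC (toA vA toA_apply vA_apply prod_nonneg prod_lower landau order_fin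
  order_fin')
open Pool.Agent.W357.EG (LK gK LK_nonneg LK_eq Bk_eq lgK)

variable {t c : ℤ} {f : ℕ} {χ : DirichletCharacter ℂ f}

theorem kd (hD : t ^ 2 < 4 * c) (hP : S_PID t c) : KD t c LK gK where
  nn := LK_nonneg
  val := fun π z k hπ hk h => LK_eq hD hπ hk h
  eq := fun M φ hM H n => by
    rw [Bk_eq hD hP hM H n]
    unfold Pool.Agent.W357.EG.Bk Pool.Agent.W357.EG.Nn
    rw [div_eq_inv_mul, one_div]
  lg := fun M φ hM H => lgK hD hP hM H

/-- the quadratic case -/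
theorem quad (hF : Fd t c f χ) (hD : t ^ 2 < 4 * c) (hP : S_PID t c) (hL : S_LCON t c) {M : ℕ}
    (hM : 1 ≤ M) {φ : Qd t c → ℂ} (H : HCh M φ)
    (hnp : ∃ z, φ z ≠ 0 ∧ φ z ≠ 1) (hq : ∀ z, φ z ≠ 0 → φ z ^ 2 = 1) (g : ℂ → ℂ)
    (hg : Differentiable ℂ g) (hgs : ∀ s : ℂ, 1 < s.re → g s = LSeries (aL φ) s) : g 1 ≠ 0 := by
  intro hg1
  have hK := kd hD hP
  have hpr : ∀ z : Qd t c, pr M z ≠ 0 → pr M z = 1 := fun z hz => pr_ne hz
  have hprq : ∀ z : Qd t c, pr M z ≠ 0 → pr M z ^ 2 = 1 := fun z hz => by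
    rw [hpr z hz, one_pow]
  obtain ⟨g0, hg0, -, hg0s⟩ := (hL M (pr M) hM (HCh_pr hD M)).2 hpr
  obtain ⟨g', -, hg's⟩ := (hL M φ hM H).1 hnp
  have L0 := hK.lg M _ hM (HCh_pr hD M)
  have L1 := hK.lg M _ hM H
  obtain ⟨p, hp, hpM⟩ := exists_inert hF hD M
  have hc := quad_nonneg hK hD hM H hq
  refine landau (toA (aL (pr M : Qd t c → ℂ)) L0.b0 * toA (aL φ) L1.b0)
    (prod_nonneg L0 L1 hc) ?_ p hp.1 (prod_lower L0 L1 hc p hp.1 ?_)
    (fun s => g0 s * dslope g 1 s) ?_ ?_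
  · rw [ArithmeticFunction.mul_apply_one, toA_apply, toA_apply, L0.b1, L1.b1, one_mul]
  · intro j hj
    rw [ArithmeticFunction.add_apply, vA_inert hK hD hM (HCh_pr hD M) hprq p hp hpM j hj,
      vA_inert hK hD hM H hq p hp hpM j hj]
    push_cast
    ring
  · refine hg0.mul ?_
    rw [← differentiableOn_univ]
    exact (Complex.differentiableOn_dslope Filter.univ_mem).2 hg.differentiableOn
  · intro s hs
    have s0 : LSeriesSummable (fun n => toA (aL (pr M : Qd t c → ℂ)) L0.b0 n) s := (hg0s s hs).1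
    have s1 : LSeriesSummable (fun n => toA (aL φ) L1.b0 n) s := (hg's s hs).1
    refine ⟨ArithmeticFunction.LSeriesSummable_mul s0 s1, ?_⟩
    rw [ArithmeticFunction.LSeries_mul' s0 s1]
    have hs1 : s ≠ 1 := by
      rintro rfl
      simp at hs
    have hs1' : s - 1 ≠ 0 := sub_ne_zero_of_ne hs1
    have h5 : LSeries (fun n => toA (aL (pr M : Qd t c → ℂ)) L0.b0 n) s =
        LSeries (aL (pr M : Qd t c → ℂ)) s := rfl
    have h6 : LSeries (fun n => toA (aL φ) L1.b0 n) s = LSeries (aL φ) s := rfl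
    rw [h5, h6, dslope_of_ne _ hs1, slope_def_field, hg1, sub_zero, (hg0s s hs).2, hgs s hs]
    field_simp

lemma hs_of {b : ℕ → ℂ} (b0 : b 0 = 0) {s : ℂ} (h : LSeriesSummable b s) :
    HasSum (fun n : ℕ => b n * (n : ℂ) ^ (-s)) (LSeries b s) := by
  have h1 : HasSum (LSeries.term b s) (LSeries b s) := h.hasSum
  rwa [show LSeries.term b s = fun n : ℕ => b n * (n : ℂ) ^ (-s) from
    funext fun n => Pool.Agent.H304R3.HK.LogDerH.term_b b b0 s n] at h1

lemma contL (hD : t ^ 2 < 4 * c) (hP : S_PID t c) (hL : S_LCON t c) {M : ℕ} (hM : 1 ≤ M)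
    {φ : Qd t c → ℂ} (H : HCh M φ) :
    ∃ G : ℂ → ℂ, (∀ s, s ≠ 1 → DifferentiableAt ℂ G s) ∧
      ((∃ z, φ z ≠ 0 ∧ φ z ≠ 1) → Differentiable ℂ G) ∧
      ∀ s : ℂ, 1 < s.re → HasSum (fun n : ℕ => aL φ n * (n : ℂ) ^ (-s)) (G s) := by
  have b0 : aL φ 0 = 0 := ((kd hD hP).lg M _ hM H).b0
  by_cases hnp : ∃ z, φ z ≠ 0 ∧ φ z ≠ 1
  · obtain ⟨g, hg, hgs⟩ := (hL M φ hM H).1 hnp
    refine ⟨g, fun s _ => hg s, fun _ => hg, fun s hs => ?_⟩
    obtain ⟨h1, h2⟩ := hgs s hs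
    rw [h2]
    exact hs_of b0 h1
  · have hp : ∀ z, φ z ≠ 0 → φ z = 1 := by
      intro z hz
      by_contra hc
      exact hnp ⟨z, hz, hc⟩
    obtain ⟨g, hg, -, hgs⟩ := (hL M φ hM H).2 hp
    refine ⟨fun s => g s / (s - 1), fun s hs => ?_, fun h => absurd h hnp, fun s hs => ?_⟩
    · exact (hg s).div ((differentiableAt_id).sub_const 1) (sub_ne_zero_of_ne hs)
    · obtain ⟨h1, h2⟩ := hgs s hs
      have hs1 : s - 1 ≠ 0 := by
        refine sub_ne_zero_of_ne ?_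
        rintro rfl
        simp at hs
      have h3 : g s / (s - 1) = LSeries (aL φ) s := by
        rw [h2]
        field_simp
      beta_reduce
      rw [h3]
      exact hs_of b0 h1

/-- EG-LNV -/
theorem lnv (hF : Fd t c f χ) (hP : S_PID t c) (hL : S_LCON t c) : S_LNV t c := by
  have hD : t ^ 2 < 4 * c := by
    have h1 := hF.disc
    have h2 : (3 : ℤ) ≤ (f : ℤ) := by exact_mod_cast hF.three
    linarith
  intro M φ hM H g hg hcase τ
  have hK := kd hD hP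
  obtain ⟨G, hGd, hGe, hGs⟩ := contL hD hP hL hM (HCh_sq H)
  have Lp := hK.lg M _ hM (HCh_pr hD M)
  have Lh := hK.lg M _ hM H
  have Lh2 := hK.lg M _ hM (HCh_sq H)
  have hG2 : G 2 ≠ 0 := F_ne_zero _ _ Lh2 G hGs 2 (by norm_num)
  obtain ⟨g0, hg0, hg01, hg0s⟩ := (hL M (pr M) hM (HCh_pr hD M)).2 (fun z hz => pr_ne hz)
  have sp : ∀ s : ℂ, 1 < s.re →
      HasSum (fun n : ℕ => aL (pr M : Qd t c → ℂ) n * (n : ℂ) ^ (-s)) (g0 s / (s - 1)) := by
    intro s hs
    obtain ⟨h1, h2⟩ := hg0s s hs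
    have hs1 : s - 1 ≠ 0 := by
      refine sub_ne_zero_of_ne ?_
      rintro rfl
      simp at hs
    have h3 : g0 s / (s - 1) = LSeries (aL (pr M : Qd t c → ℂ)) s := by
      rw [h2]
      field_simp
    rw [h3]
    exact hs_of Lp.b0 h1
  have NZ : ∀ (F : ℂ → ℂ), (∀ s : ℂ, 1 < s.re →
      HasSum (fun n : ℕ => aL φ n * (n : ℂ) ^ (-s)) (F s)) →
      ∀ (hFa : AnalyticAt ℂ F (1 + τ * I)) (m : ℕ), analyticOrderAt F (1 + τ * I) = m →
      ∀ (hGa : AnalyticAt ℂ G (1 + (2 * τ : ℝ) * I)) (m2 : ℕ),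
        analyticOrderAt G (1 + (2 * τ : ℝ) * I) = m2 → F (1 + τ * I) ≠ 0 := by
    intro F sF hFa m hm hGa m2 hm2
    exact nz_gen Lp Lh Lh2 (ineq_pos hK hD hM H) (fun s => g0 s / (s - 1)) g0 F G sp hg0 hg01
      (fun s _ => rfl) sF hGs τ _ _ rfl rfl hFa m hm hGa m2 hm2
  have hz0 : ∀ {x : ℝ}, x ≠ 0 → (1 + x * I : ℂ) ≠ 1 := by
    intro x hx h
    have := congrArg Complex.im h
    simp at this
    exact hx this
  rcases hcase with ⟨hnp, hgs⟩ | ⟨hp, hgs⟩
  · obtain ⟨g', -, hg's⟩ := (hL M φ hM H).1 hnp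
    have sF : ∀ s : ℂ, 1 < s.re → HasSum (fun n : ℕ => aL φ n * (n : ℂ) ^ (-s)) (g s) := by
      intro s hs
      have h1 := (hg's s hs).1
      rw [hgs s hs]
      exact hs_of Lh.b0 h1
    have hg2 : g 2 ≠ 0 := F_ne_zero _ _ Lh g sF 2 (by norm_num)
    obtain ⟨hFa, m, hm⟩ := order_fin' g hg hg2 (1 + τ * I)
    by_cases ht : τ = 0
    · by_cases hsq : ∃ z, φ z ^ 2 ≠ 0 ∧ φ z ^ 2 ≠ 1
      · obtain ⟨hGa, m2, hm2⟩ := order_fin' G (hGe hsq) hG2 (1 + (2 * τ : ℝ) * I)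
        exact NZ g sF hFa m hm hGa m2 hm2
      · have hq : ∀ z, φ z ≠ 0 → φ z ^ 2 = 1 := by
          intro z hz
          by_contra hc
          exact hsq ⟨z, pow_ne_zero 2 hz, hc⟩
        have := quad hF hD hP hL hM H hnp hq g hg hgs
        rw [ht]
        simpa using this
    · obtain ⟨hGa, m2, hm2⟩ := order_fin G hGd hG2 (1 + (2 * τ : ℝ) * I)
        (hz0 (mul_ne_zero two_ne_zero ht))
      exact NZ g sF hFa m hm hGa m2 hm2
  · obtain ⟨g', hg', hg'1, hg's⟩ := (hL M φ hM H).2 hp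
    by_cases ht : τ = 0
    · have heq : g = g' := by
        have han : AnalyticOnNhd ℂ g Set.univ := fun z _ => hg.analyticAt z
        have han' : AnalyticOnNhd ℂ g' Set.univ := fun z _ => hg'.analyticAt z
        refine han.eq_of_eventuallyEq (z₀ := 2) han' ?_
        have hU : IsOpen {z : ℂ | 1 < z.re} := isOpen_lt continuous_const continuous_re
        filter_upwards [hU.mem_nhds (by show (1 : ℝ) < (2 : ℂ).re; norm_num : (2 : ℂ) ∈ {z : ℂ | 1 < z.re})] with z hz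
        rw [hgs z hz, (hg's z hz).2]
      rw [ht, heq]
      simpa using hg'1
    · set F : ℂ → ℂ := fun s => g s / (s - 1) with hFdef
      have hFd : ∀ s, s ≠ 1 → DifferentiableAt ℂ F s := fun s hs =>
        (hg s).div ((differentiableAt_id).sub_const 1) (sub_ne_zero_of_ne hs)
      have sF : ∀ s : ℂ, 1 < s.re → HasSum (fun n : ℕ => aL φ n * (n : ℂ) ^ (-s)) (F s) := by
        intro s hs
        have h1 := (hg's s hs).1
        have hs1 : s - 1 ≠ 0 := by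
          refine sub_ne_zero_of_ne ?_
          rintro rfl
          simp at hs
        have h3 : F s = LSeries (aL φ) s := by
          simp only [hFdef]
          rw [hgs s hs]
          field_simp
        rw [h3]
        exact hs_of Lh.b0 h1
      have hF2 : F 2 ≠ 0 := F_ne_zero _ _ Lh F sF 2 (by norm_num)
      obtain ⟨hFa, m, hm⟩ := order_fin F hFd hF2 (1 + τ * I) (hz0 ht)
      obtain ⟨hGa, m2, hm2⟩ := order_fin G hGd hG2 (1 + (2 * τ : ℝ) * I)
        (hz0 (mul_ne_zero two_ne_zero ht))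
      have h4 := NZ F sF hFa m hm hGa m2 hm2
      intro h5
      apply h4
      simp only [hFdef]
      rw [h5, zero_div]

end Pool.Agent.W240.EG
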