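import Pool.Agent.W240.EG.NzGen

set_option autoImplicit false

/-!
Project EG (helper78), part LNV: the L-functions do not vanish on the line `Re s = 1`
(port of `Pool.Agent.W816.EC.Lnv`), from the properties of the von Mangoldt function of the
elements.
-/

open Finset Filter Topology Complex
open ArithmeticFunction (vonMangoldt)
open scoped ComplexOrder

namespace Pool.Agent.W240.EG

open Pool.Agent.W78.GA
open Pool.Agent.W78.EG
open Pool.Agent.H304R3.HK (Lg F_ne_zero nzr_ineq)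
open Pool.Agent.W816.EC (toA vA toA_apply vA_apply prod_nonneg prod_lower landau order_fin
  order_fin')

variable {t c : ℤ} {f : ℕ} {χ : DirichletCharacter ℂ f}

/-- the properties of the von Mangoldt function of the elements which are used here -/
structure KD (t c : ℤ) (LK : Qd t c → ℝ) (gK : (Qd t c → ℂ) → ℕ → ℂ) : Prop where
  nn : ∀ z, 0 ≤ LK z
  val : ∀ (π z : Qd t c) (k : ℕ), Prime π → 1 ≤ k → Associated (π ^ k) z →
    LK z = Real.log (nm π)
  eq : ∀ (M : ℕ) (φ : Qd t c → ℂ), 1 ≤ M → HCh M φ → ∀ n : ℕ,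
    (vonMangoldt n : ℂ) * gK φ n =
      (1 / (uc t c : ℂ)) * ∑ z ∈ (ball t c n).filter (fun z => nm z = n), (LK z : ℂ) * φ z
  lg : ∀ (M : ℕ) (φ : Qd t c → ℂ), 1 ≤ M → HCh M φ → Lg (aL φ) (gK φ)

/-! ### characters -/

lemma phi_bdd {M : ℕ} (hM : 1 ≤ M) {φ : Qd t c → ℂ} (H : HCh M φ) :
    ∃ C : ℝ, ∀ z, ‖φ z‖ ≤ C := by
  refine ⟨∑ p ∈ (Finset.Ico (0 : ℤ) M) ×ˢ (Finset.Ico (0 : ℤ) M), ‖φ ⟨p.1, p.2⟩‖, fun z => ?_⟩
  have hM0 : (0 : ℤ) < M := by exact_mod_cast hM
  have h1 : φ z = φ ⟨z.re % M, z.im % M⟩ :=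
    H.per _ _ (Int.dvd_self_sub_emod) (Int.dvd_self_sub_emod)
  rw [h1]
  refine Finset.single_le_sum (f := fun p : ℤ × ℤ => ‖φ ⟨p.1, p.2⟩‖)
    (fun p _ => norm_nonneg _) (a := (z.re % M, z.im % M)) ?_
  rw [mem_product, mem_Ico, mem_Ico]
  exact ⟨⟨Int.emod_nonneg _ hM0.ne', Int.emod_lt_of_pos _ hM0⟩,
    ⟨Int.emod_nonneg _ hM0.ne', Int.emod_lt_of_pos _ hM0⟩⟩

lemma phi_pow {M : ℕ} {φ : Qd t c → ℂ} (H : HCh M φ) (z : Qd t c) (k : ℕ) :
    φ (z ^ k) = φ z ^ k := by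
  induction k with
  | zero => rw [pow_zero, pow_zero, H.one]
  | succ k ih => rw [pow_succ, pow_succ, H.mul, ih]

lemma phi_le {M : ℕ} (hM : 1 ≤ M) {φ : Qd t c → ℂ} (H : HCh M φ) (z : Qd t c) : ‖φ z‖ ≤ 1 := by
  obtain ⟨C, hC⟩ := phi_bdd hM H
  by_contra hc
  push Not at hc
  have h1 : Tendsto (fun k : ℕ => ‖φ z‖ ^ k) atTop atTop := tendsto_pow_atTop_atTop_of_one_lt hc
  obtain ⟨k, hk⟩ := (h1.eventually (eventually_gt_atTop C)).exists
  have h2 := hC (z ^ k)
  rw [phi_pow H, norm_pow] at h2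
  linarith

lemma HCh_sq {M : ℕ} {φ : Qd t c → ℂ} (H : HCh M φ) : HCh M (fun z => φ z ^ 2) where
  per := fun z z' h1 h2 => by rw [H.per z z' h1 h2]
  mul := fun z z' => by rw [H.mul, mul_pow]
  one := by rw [H.one, one_pow]
  unit := fun u hu => by rw [H.unit u hu, one_pow]
  ne := fun z => by
    rw [← H.ne z, ne_eq, ne_eq, pow_eq_zero_iff two_ne_zero]

open scoped Classical in
/-- the principal character modulo `M` -/
noncomputable def pr (M : ℕ) (z : Qd t c) : ℂ := if IsCoprime z (M : Qd t c) then 1 else 0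

lemma coprime_per {M : ℕ} {z z' : Qd t c} (h1 : (M : ℤ) ∣ z.re - z'.re)
    (h2 : (M : ℤ) ∣ z.im - z'.im) :
    IsCoprime z (M : Qd t c) → IsCoprime z' (M : Qd t c) := by
  intro h
  have h3 : (M : Qd t c) ∣ z - z' := by
    rw [natCast_dvd]
    simpa using ⟨h1, h2⟩
  obtain ⟨u, hu⟩ := h3
  have h4 : z' = z + (-u) * (M : Qd t c) := by
    linear_combination (-1 : Qd t c) * hu
  rw [h4]
  exact IsCoprime.add_mul_right_left h (-u)

lemma isUnit_of_nm (hD : t ^ 2 < 4 * c) {z : Qd t c} (h : nm z = 1) : IsUnit z := by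
  have h1 := star_mul_self' hD z
  rw [h, Nat.cast_one] at h1
  exact IsUnit.of_mul_eq_one _ ((mul_comm _ _).trans h1)

lemma HCh_pr (hD : t ^ 2 < 4 * c) (M : ℕ) : HCh M (pr M : Qd t c → ℂ) where
  per := fun z z' h1 h2 => by
    unfold pr
    have e : IsCoprime z (M : Qd t c) ↔ IsCoprime z' (M : Qd t c) :=
      ⟨coprime_per h1 h2, coprime_per (by rw [← dvd_neg]; simpa using h1)
        (by rw [← dvd_neg]; simpa using h2)⟩
    by_cases h : IsCoprime z (M : Qd t c)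
    · rw [if_pos h, if_pos (e.1 h)]
    · rw [if_neg h, if_neg (fun h' => h (e.2 h'))]
  mul := fun z z' => by
    unfold pr
    by_cases h1 : IsCoprime z (M : Qd t c)
    · by_cases h2 : IsCoprime z' (M : Qd t c)
      · rw [if_pos h1, if_pos h2, if_pos (h1.mul_left h2), one_mul]
      · rw [if_neg h2, mul_zero, if_neg]
        intro h
        exact h2 (IsCoprime.of_mul_left_right h)
    · rw [if_neg h1, zero_mul, if_neg]
      intro h
      exact h1 (IsCoprime.of_mul_left_left h)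
  one := by
    unfold pr
    rw [if_pos isCoprime_one_left]
  unit := fun u hu => by
    unfold pr
    rw [if_pos]
    have h1 : star u * u = 1 := by rw [star_mul_self' hD, hu, Nat.cast_one]
    exact ⟨star u, 0, by rw [h1, zero_mul, add_zero]⟩
  ne := fun z => by
    unfold pr
    split_ifs with h
    · simp [h]
    · simp [h]

lemma pr_ne {M : ℕ} {z : Qd t c} (h : pr M z ≠ 0) : pr M z = 1 := by
  unfold pr at h ⊢
  split_ifs at h ⊢ with h'
  · rfl
  · exact absurd rfl h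

lemma pr_phi {M : ℕ} {φ : Qd t c → ℂ} (H : HCh M φ) (z : Qd t c) :
    (φ z = 0 ∧ pr M z = 0) ∨ pr M z = 1 := by
  by_cases h : IsCoprime z (M : Qd t c)
  · right; unfold pr; rw [if_pos h]
  · left
    refine ⟨?_, by unfold pr; rw [if_neg h]⟩
    by_contra h1
    exact h ((H.ne z).1 h1)

lemma sq_one_cases {x : ℂ} (h : x ^ 2 = 1) : x = 1 ∨ x = -1 := by
  have h2 : (x - 1) * (x + 1) = 0 := by linear_combination h
  rcases mul_eq_zero.1 h2 with h3 | h3
  · left; linear_combination h3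
  · right; linear_combination h3

/-! ### positivity -/

section

variable {LK : Qd t c → ℝ} {gK : (Qd t c → ℂ) → ℕ → ℂ}

lemma uc_inv_nonneg : (0 : ℝ) ≤ 1 / (uc t c : ℝ) := by positivity

lemma uc_cast : ((1 / (uc t c : ℝ) : ℝ) : ℂ) = 1 / (uc t c : ℂ) := by push_cast; rfl

lemma quad_nonneg (hK : KD t c LK gK) (hD : t ^ 2 < 4 * c) {M : ℕ} (hM : 1 ≤ M) {φ : Qd t c → ℂ}
    (H : HCh M φ) (hq : ∀ z, φ z ≠ 0 → φ z ^ 2 = 1) (n : ℕ) :
    0 ≤ (vA (gK (pr M)) + vA (gK φ)) n := by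
  rw [ArithmeticFunction.add_apply, vA_apply, vA_apply, hK.eq M _ hM (HCh_pr hD M) n,
    hK.eq M _ hM H n, ← mul_add, ← Finset.sum_add_distrib]
  refine mul_nonneg ?_ (Finset.sum_nonneg fun z _ => ?_)
  · rw [← uc_cast]
    exact_mod_cast uc_inv_nonneg
  · rw [← mul_add]
    refine mul_nonneg (by exact_mod_cast hK.nn z) ?_
    rcases pr_phi H z with ⟨h1, h2⟩ | h2
    · rw [h1, h2]; simp
    · rw [h2]
      by_cases h1 : φ z = 0
      · rw [h1]; simp
      · rcases sq_one_cases (hq z h1) with h3 | h3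
        · rw [h3]
          have : (0 : ℝ) ≤ 1 + 1 := by norm_num
          exact_mod_cast this
        · rw [h3]
          simp

lemma ineq_pos (hK : KD t c LK gK) (hD : t ^ 2 < 4 * c) {M : ℕ} (hM : 1 ≤ M) {φ : Qd t c → ℂ}
    (H : HCh M φ) (n : ℕ) (y : ℂ) (hy : ‖y‖ ≤ 1) :
    0 ≤ (3 * ((vonMangoldt n : ℂ) * gK (pr M) n) + 4 * (((vonMangoldt n : ℂ) * gK φ n) * y) +
        ((vonMangoldt n : ℂ) * gK (fun z => φ z ^ 2) n) * y ^ 2).re := by
  rw [hK.eq M _ hM (HCh_pr hD M) n, hK.eq M _ hM H n, hK.eq M _ hM (HCh_sq H) n]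
  have e : 3 * ((1 / (uc t c : ℂ)) * ∑ z ∈ (ball t c n).filter (fun z => nm z = n),
        (LK z : ℂ) * pr M z) +
      4 * (((1 / (uc t c : ℂ)) * ∑ z ∈ (ball t c n).filter (fun z => nm z = n),
        (LK z : ℂ) * φ z) * y) +
      ((1 / (uc t c : ℂ)) * ∑ z ∈ (ball t c n).filter (fun z => nm z = n),
        (LK z : ℂ) * φ z ^ 2) * y ^ 2 =
      ((1 / (uc t c : ℝ) : ℝ) : ℂ) * ∑ z ∈ (ball t c n).filter (fun z => nm z = n),
        (LK z : ℂ) * (3 * pr M z + 4 * (φ z * y) + (φ z * y) ^ 2) := by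
    rw [uc_cast, mul_comm _ y, mul_comm _ (y ^ 2)]
    simp only [Finset.mul_sum]
    rw [← Finset.sum_add_distrib, ← Finset.sum_add_distrib]
    refine Finset.sum_congr rfl fun z _ => ?_
    ring
  rw [e, Complex.re_ofReal_mul]
  refine mul_nonneg uc_inv_nonneg ?_
  rw [Complex.re_sum]
  refine Finset.sum_nonneg fun z _ => ?_
  rw [Complex.re_ofReal_mul]
  refine mul_nonneg (hK.nn z) ?_
  rcases pr_phi H z with ⟨h1, h2⟩ | h2
  · rw [h1, h2]; simp
  · rw [h2, mul_one]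
    refine nzr_ineq _ ?_
    rw [norm_mul]
    calc ‖φ z‖ * ‖y‖ ≤ 1 * 1 := mul_le_mul (phi_le hM H _) hy (norm_nonneg _) zero_le_one
      _ = 1 := one_mul 1

/-! ### inert primes -/

/-- an inert prime -/
def Inert (t c : ℤ) (p : ℕ) : Prop := p.Prime ∧ ∀ z : Qd t c, (p : ℤ) ∣ (nm z : ℤ) → (p : Qd t c) ∣ z

lemma exists_inert (hF : Fd t c f χ) (hD : t ^ 2 < 4 * c) (M : ℕ) :
    ∃ p : ℕ, Inert t c p ∧ M < p := by
  have hf0 : NeZero f := ⟨by have := hF.three; omega⟩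
  -- a residue class with `χ = -1`
  have h1 : χ ≠ 1 := by
    rintro rfl
    have h2 := hF.prim
    unfold DirichletCharacter.IsPrimitive at h2
    rw [DirichletCharacter.conductor_one] at h2
    have := hF.three
    omega
  obtain ⟨a, ha⟩ : ∃ a : (ZMod f)ˣ, χ a ≠ 1 := by
    by_contra hcon
    push Not at hcon
    apply h1
    ext a
    rw [hcon a, MulChar.one_apply_coe]
  have ha1 : χ (a : ZMod f) = -1 := by
    have h3 := hF.val ((a : ZMod f).val)
    rw [ZMod.natCast_zmod_val] at h3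
    rcases h3 with h3 | h3 | h3
    · exact absurd h3 (a.isUnit.map χ).ne_zero
    · exact absurd h3 ha
    · exact h3
  obtain ⟨p, hp1, hp2, hp3⟩ := Nat.forall_exists_prime_gt_and_eq_mod a.isUnit M
  refine ⟨p, ⟨hp2, ?_⟩, hp1⟩
  have hroot := (hF.root p hp2)
  have hno : ¬ ∃ r : ℤ, (p : ℤ) ∣ r ^ 2 - t * r + c := by
    rw [hroot, not_not, hp3, ha1]
  have hpZ : Prime (p : ℤ) := Nat.prime_iff_prime_int.1 hp2
  intro z hz
  rw [nm_cast hD] at hz
  -- `p ∣ im`
  have him : (p : ℤ) ∣ z.im := by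
    by_contra him
    have hcop : IsCoprime (z.im) (p : ℤ) := by
      rw [isCoprime_comm]
      exact (Prime.coprime_iff_not_dvd hpZ).2 him
    obtain ⟨u, v, huv⟩ := hcop
    apply hno
    refine ⟨-(z.re * u), ?_⟩
    have h5 : (-(z.re * u)) ^ 2 - t * (-(z.re * u)) + c =
        u ^ 2 * (z.re ^ 2 + t * z.re * z.im + c * z.im ^ 2) +
          (p : ℤ) * (t * z.re * u * v + c * v * (1 + u * z.im)) := by
      have h6 : u * z.im = 1 - v * p := by linear_combination huv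
      linear_combination (-t * z.re * u - c * (u * z.im + 1)) * h6
    rw [h5]
    exact dvd_add (Dvd.dvd.mul_left hz _) (Dvd.intro _ rfl)
  have hre : (p : ℤ) ∣ z.re := by
    have h7 : (p : ℤ) ∣ z.re ^ 2 := by
      have h8 : z.re ^ 2 = (z.re ^ 2 + t * z.re * z.im + c * z.im ^ 2) -
          z.im * (t * z.re + c * z.im) := by ring
      rw [h8]
      exact dvd_sub hz (Dvd.dvd.mul_right him _)
    exact hpZ.dvd_of_dvd_pow h7
  rw [natCast_dvd]
  exact ⟨hre, him⟩

lemma inert_prime (hD : t ^ 2 < 4 * c) {p : ℕ} (hp : Inert t c p) : Prime (p : Qd t c) := by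
  refine ⟨?_, ?_, ?_⟩
  · intro h
    have h1 := congrArg nm h
    rw [nm_natCast, nm_zero] at h1
    exact absurd h1 (by have := hp.1.pos; positivity)
  · intro h
    obtain ⟨u, hu⟩ := h.exists_right_inv
    have h1 := congrArg nm hu
    rw [nm_mul, nm_natCast] at h1
    have h2 : nm (1 : Qd t c) = 1 := by
      have := nm_natCast (t := t) (c := c) 1
      simpa using this
    rw [h2] at h1
    have h3 : p ^ 2 = 1 := Nat.eq_one_of_mul_eq_one_right h1
    have := hp.1.one_lt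
    nlinarith
  · intro a b hab
    have h1 : p ∣ nm a * nm b := by
      have h2 := nm_dvd hab
      rw [nm_natCast, nm_mul] at h2
      exact (Dvd.intro_left _ (by ring : p * p = p ^ 2)).trans h2
    rcases (Nat.Prime.dvd_mul hp.1).1 h1 with h | h
    · left; exact hp.2 a (by exact_mod_cast h)
    · right; exact hp.2 b (by exact_mod_cast h)

lemma inert_nm (hD : t ^ 2 < 4 * c) {p : ℕ} (hp : Inert t c p) (i : ℕ) (z : Qd t c)
    (hz : nm z = p ^ (2 * i)) : ∃ u : Qd t c, nm u = 1 ∧ z = (p : Qd t c) ^ i * u := by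
  induction i generalizing z with
  | zero => exact ⟨z, by simpa using hz, by simp⟩
  | succ i ih =>
    have h1 : (p : Qd t c) ∣ z := by
      apply hp.2
      rw [hz]
      push_cast
      exact dvd_pow_self _ (by omega)
    obtain ⟨w, rfl⟩ := h1
    rw [nm_mul, nm_natCast] at hz
    have h2 : nm w = p ^ (2 * i) := by
      have h3 : p ^ (2 * (i + 1)) = p ^ 2 * p ^ (2 * i) := by ring
      rw [h3] at hz
      exact Nat.eq_of_mul_eq_mul_left (pow_pos hp.1.pos 2) hz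
    obtain ⟨u, hu, rfl⟩ := ih w h2
    exact ⟨u, hu, by ring⟩

lemma vA_inert (hK : KD t c LK gK) (hD : t ^ 2 < 4 * c) {M : ℕ} (hM : 1 ≤ M) {φ : Qd t c → ℂ}
    (H : HCh M φ) (hq : ∀ z, φ z ≠ 0 → φ z ^ 2 = 1) (p : ℕ) (hp : Inert t c p) (hpM : M < p)
    (j : ℕ) (hj : 1 ≤ j) : vA (gK φ) (p ^ (4 * j)) = ((2 * Real.log p : ℝ) : ℂ) := by
  have hpp := inert_prime hD hp
  have hc : IsCoprime (p : Qd t c) (M : Qd t c) := by
    have h1 : Nat.Coprime p M := (Nat.Prime.coprime_iff_not_dvd hp.1).2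
      (fun h => absurd (Nat.le_of_dvd hM h) (by omega))
    have h2 : IsCoprime (p : ℤ) (M : ℤ) := Nat.isCoprime_iff_coprime.2 h1
    have h3 := h2.map (Int.castRingHom (Qd t c))
    simpa using h3
  have hφ2 : φ (p : Qd t c) ^ 2 = 1 := hq _ ((H.ne _).2 hc)
  rw [vA_apply, hK.eq M _ hM H]
  have hball : (ball t c ((p ^ (4 * j) : ℕ) : ℝ)).filter (fun z => nm z = p ^ (4 * j)) =
      (ball t c 1).image (fun u => (p : Qd t c) ^ (2 * j) * u) := by
    ext z
    rw [mem_filter, mem_ball hD, mem_image]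
    constructor
    · rintro ⟨-, hz⟩
      obtain ⟨u, hu, rfl⟩ := inert_nm hD hp (2 * j) z (by rw [hz]; congr 1; ring)
      refine ⟨u, ?_, rfl⟩
      rw [mem_ball hD, hu]
      norm_num
    · rintro ⟨u, hu, rfl⟩
      rw [mem_ball hD] at hu
      have hu1 : nm u = 1 := by
        have : nm u ≤ 1 := by exact_mod_cast hu.2
        omega
      have h5 : nm ((p : Qd t c) ^ (2 * j) * u) = p ^ (4 * j) := by
        rw [nm_mul, nm_pow, nm_natCast, hu1, mul_one, ← pow_mul]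
        congr 1
        ring
      rw [h5]
      refine ⟨⟨Nat.one_le_pow _ _ hp.1.pos, le_rfl⟩, rfl⟩
  have hinj : Set.InjOn (fun u : Qd t c => (p : Qd t c) ^ (2 * j) * u) (ball t c 1 : Set (Qd t c)) := by
    intro u _ v _ huv
    have h6 : (p : Qd t c) ^ (2 * j) * (u - v) = 0 := by
      have : (p : Qd t c) ^ (2 * j) * u = (p : Qd t c) ^ (2 * j) * v := huv
      rw [mul_sub, this, sub_self]
    have h7 : nm ((p : Qd t c) ^ (2 * j) * (u - v)) = 0 := by rw [h6, nm_zero]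
    rw [nm_mul, nm_pow, nm_natCast] at h7
    rcases Nat.mul_eq_zero.1 h7 with h8 | h8
    · exact absurd h8 (by have := hp.1.pos; positivity)
    · exact sub_eq_zero.1 ((nm_eq_zero hD).1 h8)
  rw [hball, Finset.sum_image hinj]
  have hterm : ∀ u ∈ ball t c 1, (LK ((p : Qd t c) ^ (2 * j) * u) : ℂ) *
      φ ((p : Qd t c) ^ (2 * j) * u) = ((2 * Real.log p : ℝ) : ℂ) := by
    intro u hu
    rw [mem_ball hD] at hu
    have hu1 : nm u = 1 := by
      have : nm u ≤ 1 := by exact_mod_cast hu.2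
      omega
    have hass : Associated ((p : Qd t c) ^ (2 * j)) ((p : Qd t c) ^ (2 * j) * u) := by
      obtain ⟨v, hv⟩ := isUnit_of_nm hD hu1
      exact ⟨v, by rw [hv]⟩
    rw [hK.val _ _ (2 * j) hpp (by omega) hass, nm_natCast, H.mul, H.unit u hu1, mul_one,
      phi_pow H, pow_mul, hφ2, one_pow, mul_one]
    push_cast
    rw [show ((p : ℝ) ^ 2) = (p : ℝ) ^ (2 : ℕ) from rfl, Real.log_pow]
    push_cast
    ring
  rw [Finset.sum_congr rfl hterm, Finset.sum_const, nsmul_eq_mul]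
  have huc : ((uc t c : ℕ) : ℂ) ≠ 0 := by
    have h9 : (1 : Qd t c) ∈ ball t c 1 := by
      rw [mem_ball hD]
      have h2 : nm (1 : Qd t c) = 1 := by
        have := nm_natCast (t := t) (c := c) 1
        simpa using this
      rw [h2]
      norm_num
    have h10 : 0 < uc t c := Finset.card_pos.2 ⟨_, h9⟩
    exact_mod_cast h10.ne'
  change 1 / ((uc t c : ℕ) : ℂ) * (((uc t c : ℕ) : ℂ) * _) = _
  field_simp

end

end Pool.Agent.W240.EG
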