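import Pool.Agent.W816.EC.Landau
import Pool.Agent.W78.EG.Defs

set_option autoImplicit false

/-!
Project EG (helper78), part LNV: the general non-vanishing lemma on the line `Re s = 1`
(after `Pool.Agent.W816.EC.NzGen`).
-/

open Finset Filter Topology Complex
open ArithmeticFunction (vonMangoldt)

namespace Pool.Agent.W240.EG

open Pool.Agent.H304R2.EC (summable_term)
open Pool.Agent.H304R3.HK (Lg F_ne_zero F_ld)
open Pool.Agent.W816.EC (tendsto_logDeriv')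

theorem limA {b0 c0 : ℕ → ℂ} (L0 : Lg b0 c0) (F0 g0 : ℂ → ℂ)
    (s0 : ∀ s : ℂ, 1 < s.re → HasSum (fun n : ℕ => b0 n * (n : ℂ) ^ (-s)) (F0 s))
    (hg0 : Differentiable ℂ g0) (hg01 : g0 1 ≠ 0)
    (hF0 : ∀ s : ℂ, 1 < s.re → F0 s = g0 s / (s - 1)) :
    Tendsto (fun σ : ℝ => (σ : ℂ) * ∑' n : ℕ, ((vonMangoldt n : ℂ) * c0 n) *
      (n : ℂ) ^ (-(1 + σ : ℂ))) (𝓝[>] 0) (𝓝 1) := by
  have h0 : analyticOrderAt g0 1 = ((0 : ℕ) : ℕ∞) := by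
    rw [Nat.cast_zero]
    exact (hg0.analyticAt 1).analyticOrderAt_eq_zero.2 hg01
  have h1 := tendsto_logDeriv' g0 1 (hg0.analyticAt 1) 0 h0
  have h2 : Tendsto (fun σ : ℝ => (1 : ℂ) - (σ : ℂ) * (deriv g0 (1 + σ) / g0 (1 + σ)))
      (𝓝[>] 0) (𝓝 (1 - ((0 : ℕ) : ℂ))) := tendsto_const_nhds.sub h1
  rw [Nat.cast_zero, sub_zero] at h2
  refine h2.congr' ?_
  filter_upwards [self_mem_nhdsWithin] with σ hσ
  have hσ0 : (0 : ℝ) < σ := hσ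
  have hσc : (σ : ℂ) ≠ 0 := by exact_mod_cast hσ0.ne'
  have hs : 1 < ((1 : ℂ) + σ).re := by simp; linarith
  have h3 := F_ld _ _ L0 F0 s0 (1 + σ) hs
  have h4 : F0 (1 + σ) ≠ 0 := F_ne_zero _ _ L0 F0 s0 _ hs
  have h5 : (1 : ℂ) + σ - 1 = σ := by ring
  have h6 : g0 (1 + σ) ≠ 0 := by
    intro h
    rw [hF0 _ hs, h, zero_div] at h4
    exact h4 rfl
  have h7 : F0 =ᶠ[𝓝 ((1 : ℂ) + σ)] fun s => g0 s / (s - 1) := by
    have hU : IsOpen {z : ℂ | 1 < z.re} := isOpen_lt continuous_const continuous_re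
    filter_upwards [hU.mem_nhds hs] with z hz
    exact hF0 z hz
  have h8 : HasDerivAt (fun s => g0 s / (s - 1))
      ((deriv g0 (1 + σ) * ((1 : ℂ) + σ - 1) - g0 (1 + σ) * 1) / ((1 : ℂ) + σ - 1) ^ 2)
      ((1 : ℂ) + σ) :=
    ((hg0 _).hasDerivAt).div ((hasDerivAt_id _).sub_const 1) (by show (1 : ℂ) + σ - 1 ≠ 0; rw [h5]; exact hσc)
  have h9 : deriv F0 (1 + σ) = (deriv g0 (1 + σ) * σ - g0 (1 + σ)) / (σ : ℂ) ^ 2 := by
    rw [h7.deriv_eq, h8.deriv, h5, mul_one]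
  have h10 : (∑' n : ℕ, ((vonMangoldt n : ℂ) * c0 n) * (n : ℂ) ^ (-(1 + σ : ℂ))) =
      -(deriv F0 (1 + σ) / F0 (1 + σ)) := by
    rw [h3, neg_neg]
  rw [h10, h9, hF0 _ hs, h5]
  field_simp
  ring

theorem nz_gen {b0 c0 b1 c1 b2 c2 : ℕ → ℂ} (L0 : Lg b0 c0) (L1 : Lg b1 c1) (L2 : Lg b2 c2)
    (hpos : ∀ (n : ℕ) (y : ℂ), ‖y‖ ≤ 1 →
      0 ≤ (3 * ((vonMangoldt n : ℂ) * c0 n) + 4 * (((vonMangoldt n : ℂ) * c1 n) * y) +
        ((vonMangoldt n : ℂ) * c2 n) * y ^ 2).re)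
    (F0 g0 F G : ℂ → ℂ)
    (s0 : ∀ s : ℂ, 1 < s.re → HasSum (fun n : ℕ => b0 n * (n : ℂ) ^ (-s)) (F0 s))
    (hg0 : Differentiable ℂ g0) (hg01 : g0 1 ≠ 0)
    (hF0 : ∀ s : ℂ, 1 < s.re → F0 s = g0 s / (s - 1))
    (sF : ∀ s : ℂ, 1 < s.re → HasSum (fun n : ℕ => b1 n * (n : ℂ) ^ (-s)) (F s))
    (sG : ∀ s : ℂ, 1 < s.re → HasSum (fun n : ℕ => b2 n * (n : ℂ) ^ (-s)) (G s))
    (t : ℝ) (z0 z1 : ℂ) (hz0 : z0 = 1 + t * I) (hz1 : z1 = 1 + (2 * t : ℝ) * I)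
    (hFa : AnalyticAt ℂ F z0) (m : ℕ) (hm : analyticOrderAt F z0 = m)
    (hGa : AnalyticAt ℂ G z1) (m2 : ℕ) (hm2 : analyticOrderAt G z1 = m2) : F z0 ≠ 0 := by
  intro h0
  have hz0' : z0 = 1 + t * I := hz0
  have hm1 : 1 ≤ m := by
    by_contra hc
    have : m = 0 := by omega
    rw [this] at hm
    have h2 := hFa.analyticOrderAt_eq_zero.1 (by rw [hm]; rfl)
    exact h2 h0
  have hL := tendsto_logDeriv' F z0 hFa m hm
  have hL2 := tendsto_logDeriv' G z1 hGa m2 hm2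
  have h1 := limA L0 F0 g0 s0 hg0 hg01 hF0
  have hcomb := ((h1.const_mul 3).sub (hL.const_mul 4)).sub hL2
  have hre : Tendsto (fun σ : ℝ => ((3 * ((σ : ℂ) *
      ∑' n : ℕ, ((vonMangoldt n : ℂ) * c0 n) * (n : ℂ) ^ (-(1 + σ : ℂ))) -
      4 * (((σ : ℂ)) * (deriv F (z0 + σ) / F (z0 + σ)))) -
      (σ : ℂ) * (deriv G (z1 + σ) / G (z1 + σ))).re) (𝓝[>] 0)
      (𝓝 ((3 * 1 - 4 * (m : ℂ) - (m2 : ℂ) : ℂ).re)) :=
    (Complex.continuous_re.tendsto _).comp hcomb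
  have hpos' : ∀ᶠ σ : ℝ in 𝓝[>] 0, 0 ≤ ((3 * ((σ : ℂ) *
      ∑' n : ℕ, ((vonMangoldt n : ℂ) * c0 n) * (n : ℂ) ^ (-(1 + σ : ℂ))) -
      4 * (((σ : ℂ)) * (deriv F (z0 + σ) / F (z0 + σ)))) -
      (σ : ℂ) * (deriv G (z1 + σ) / G (z1 + σ))).re := by
    filter_upwards [self_mem_nhdsWithin] with σ hσ
    have hσ0 : (0 : ℝ) < σ := hσ
    have hs0 : 1 < (z0 + σ).re := by
      rw [hz0']; simp; linarith
    have hs1 : 1 < (z1 + σ).re := by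
      rw [hz1]; simp; linarith
    rw [F_ld _ _ L1 F sF (z0 + σ) hs0, F_ld _ _ L2 G sG (z1 + σ) hs1]
    have sumc : ∀ (c : ℕ → ℂ), (∀ n, ‖c n‖ ≤ 2) → ∀ s : ℂ, 1 < s.re →
        Summable (fun n : ℕ => ((vonMangoldt n : ℂ) * c n) * (n : ℂ) ^ (-s)) := by
      intro c hc s hs
      refine summable_term _ 2 ?_ _ hs
      intro n
      rw [norm_mul, Complex.norm_real, Real.norm_of_nonneg ArithmeticFunction.vonMangoldt_nonneg,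
        mul_comm]
      exact mul_le_mul_of_nonneg_right (hc n) ArithmeticFunction.vonMangoldt_nonneg
    have sum1 := sumc _ L0.cd (1 + σ) (by simp; linarith)
    have sum2 := sumc _ L1.cd (z0 + σ) hs0
    have sum3 := sumc _ L2.cd (z1 + σ) hs1
    have htot : (3 * ((σ : ℂ) *
      ∑' n : ℕ, ((vonMangoldt n : ℂ) * c0 n) * (n : ℂ) ^ (-(1 + σ : ℂ))) -
      4 * (((σ : ℂ)) * -∑' n : ℕ, ((vonMangoldt n : ℂ) * c1 n) * (n : ℂ) ^ (-(z0 + σ)))) -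
      (σ : ℂ) * -∑' n : ℕ, ((vonMangoldt n : ℂ) * c2 n) * (n : ℂ) ^ (-(z1 + σ)) =
      (σ : ℂ) * ∑' n : ℕ, (3 * (((vonMangoldt n : ℂ) * c0 n) * (n : ℂ) ^ (-(1 + σ : ℂ))) +
        4 * (((vonMangoldt n : ℂ) * c1 n) * (n : ℂ) ^ (-(z0 + σ))) +
        ((vonMangoldt n : ℂ) * c2 n) * (n : ℂ) ^ (-(z1 + σ))) := by
      rw [Summable.tsum_add ((sum1.mul_left 3).add (sum2.mul_left 4)) sum3,
        Summable.tsum_add (sum1.mul_left 3) (sum2.mul_left 4), tsum_mul_left, tsum_mul_left]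
      ring
    rw [htot, Complex.re_ofReal_mul]
    refine mul_nonneg hσ0.le ?_
    rw [Complex.re_tsum (((sum1.mul_left 3).add (sum2.mul_left 4)).add sum3)]
    refine tsum_nonneg fun n => ?_
    rcases Nat.eq_zero_or_pos n with rfl | hn
    · simp
    have hn0 : (n : ℂ) ≠ 0 := by exact_mod_cast hn.ne'
    set y : ℂ := (n : ℂ) ^ (-(t * I)) with hy
    have hy1 : ‖y‖ ≤ 1 := by
      rw [hy, Complex.norm_natCast_cpow_of_pos hn]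
      simp
    have e0 : (n : ℂ) ^ (-(1 + σ : ℂ)) = (((n : ℝ) ^ (-(1 + σ)) : ℝ) : ℂ) := by
      rw [Complex.ofReal_cpow (by positivity)]; push_cast; rfl
    have e2 : (n : ℂ) ^ (-(z0 + σ)) = (((n : ℝ) ^ (-(1 + σ)) : ℝ) : ℂ) * y := by
      rw [← e0, hy, ← Complex.cpow_add _ _ hn0, hz0']; congr 1; ring
    have e3 : (n : ℂ) ^ (-(z1 + σ)) = (((n : ℝ) ^ (-(1 + σ)) : ℝ) : ℂ) * y ^ 2 := by
      rw [← e0, hy, pow_two, ← Complex.cpow_add _ _ hn0, ← Complex.cpow_add _ _ hn0]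
      congr 1; rw [hz1]; push_cast; ring
    have e4 : 3 * (((vonMangoldt n : ℂ) * c0 n) * (n : ℂ) ^ (-(1 + σ : ℂ))) +
        4 * (((vonMangoldt n : ℂ) * c1 n) * (n : ℂ) ^ (-(z0 + σ))) +
        ((vonMangoldt n : ℂ) * c2 n) * (n : ℂ) ^ (-(z1 + σ)) =
        (((n : ℝ) ^ (-(1 + σ)) : ℝ) : ℂ) * (3 * ((vonMangoldt n : ℂ) * c0 n) +
          4 * (((vonMangoldt n : ℂ) * c1 n) * y) + ((vonMangoldt n : ℂ) * c2 n) * y ^ 2) := by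
      rw [e0, e2, e3]
      ring
    rw [e4, Complex.re_ofReal_mul]
    exact mul_nonneg (by positivity) (hpos n y hy1)
  have hfin := ge_of_tendsto hre hpos'
  have hval : (3 * 1 - 4 * (m : ℂ) - (m2 : ℂ) : ℂ).re = 3 - 4 * (m : ℝ) - m2 := by
    simp
  rw [hval] at hfin
  have hm1' : (1 : ℝ) ≤ m := by exact_mod_cast hm1
  have hm2' : (0 : ℝ) ≤ m2 := Nat.cast_nonneg _
  linarith

end Pool.Agent.W240.EG
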